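import Mathlib

/-!
# Universal bound for the lattice width of lattice-free bodies in dimension three: definitions
-/

namespace Pool.Agent.Helper12.LW

open Matrix

/-- the real vector of an integer vector -/
def toR (z : Fin 3 → ℤ) : Fin 3 → ℝ := fun i => (z i : ℝ)

/-- lattice-free convex body -/
structure LFree (K : Set (Fin 3 → ℝ)) : Prop where
  compact : IsCompact K
  convex : Convex ℝ K
  interior_nonempty : (interior K).Nonempty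
  free : ∀ z : Fin 3 → ℤ, toR z ∉ interior K

/-- the quadratic form of a matrix -/
def qf (A : Matrix (Fin 3) (Fin 3) ℝ) (v : Fin 3 → ℝ) : ℝ := v ⬝ᵥ A *ᵥ v

/-- `A` has trace pairing at most `μ` with every form `∑ a j (v j)(v j)ᵀ` that is at most one on `K - K`. -/
def PosAt (K : Set (Fin 3 → ℝ)) (A : Matrix (Fin 3) (Fin 3) ℝ) (μ : ℝ) : Prop :=
  ∀ (a : Fin 4 → ℝ) (v : Fin 4 → Fin 3 → ℝ), (∀ j, 0 ≤ a j) →
    (∀ x ∈ K, ∀ x' ∈ K, ∑ j, a j * (v j ⬝ᵥ (x - x')) ^ 2 ≤ 1) → ∑ j, a j * qf A (v j) ≤ μ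

/-- the normalised form -/
def Mm (α β γ : ℝ) : Matrix (Fin 3) (Fin 3) ℝ := !![1, α, β; α, 1, γ; β, γ, 1]

/-- the domain of the parameters -/
def InH (α β γ : ℝ) : Prop :=
  |α| ≤ 1 / 2 ∧ |β| ≤ 1 / 2 ∧ |γ| ≤ 1 / 2 ∧ -1 ≤ α + β + γ ∧ -1 ≤ α - β - γ ∧ -1 ≤ -α + β - γ ∧
    -1 ≤ -α - β + γ

/-- a tetrahedron of separators at the lattice points `P` -/
structure Sep4 (K : Set (Fin 3 → ℝ)) (P : Fin 4 → Fin 3 → ℤ) (v : Fin 4 → Fin 3 → ℝ) : Prop where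
  sum_zero : ∑ j, v j = 0
  norm_one : ∑ j, v j ⬝ᵥ toR (P j) = 1
  sep : ∀ j, ∀ x ∈ K, v j ⬝ᵥ x ≤ v j ⬝ᵥ toR (P j)

/-- the chain of lattice points with base `z` and order `σ` for the vectors `f 0, f 1, f 2` -/
def chainP (f : Fin 4 → Fin 3 → ℤ) (z : Fin 3 → ℤ) (σ : Equiv.Perm (Fin 3)) (k : Fin 4) : Fin 3 → ℤ :=
  z + ∑ j : Fin 3, if (j : ℕ) < (k : ℕ) then f (σ j).castSucc else 0

end Pool.Agent.Helper12.LW
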