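import Mathlib

/-! Polynomials, boxes and the lower bound: the computable part and its soundness. -/

namespace Pool.Agent.Helper12.LW

/-- `c0 D + c1 (1-z²) + c2 (1-y²) + c3 (1-x²) + c4 (yz-x) + c5 (xz-y) + c6 (xy-z)` -/
structure Phi where
  c0 : ℤ
  c1 : ℤ
  c2 : ℤ
  c3 : ℤ
  c4 : ℤ
  c5 : ℤ
  c6 : ℤ

/-- the value of a polynomial -/
noncomputable def Phi.eval (p : Phi) (x y z : ℝ) : ℝ :=
  p.c0 * (1 + 2 * x * y * z - x ^ 2 - y ^ 2 - z ^ 2) + p.c1 * (1 - z ^ 2) + p.c2 * (1 - y ^ 2)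
    + p.c3 * (1 - x ^ 2) + p.c4 * (y * z - x) + p.c5 * (x * z - y) + p.c6 * (x * y - z)

/-- a box with corners `(xl, yl, zl) / N` and `(xh, yh, zh) / N`, where `N` is a global constant -/
structure Box where
  xl : ℤ
  xh : ℤ
  yl : ℤ
  yh : ℤ
  zl : ℤ
  zh : ℤ

/-- the denominator of the corners -/
def NN : ℤ := 4096

/-- absolute value -/
def iabs (a : ℤ) : ℤ := if a < 0 then -a else a

/-- negative part -/
def ineg (a : ℤ) : ℤ := if a < 0 then a else 0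

/-- lower bound for the polynomial on the box with centre `(X, Y, Z) / M` and radii `(R, S, T) / M`,
multiplied by `M ^ 3` -/
def lbc (p : Phi) (M X Y Z R S T : ℤ) : ℤ :=
  let MM := M * M
  let XX := X * X
  let YY := Y * Y
  let ZZ := Z * Z
  let YZ := Y * Z
  let XZ := X * Z
  let XY := X * Y
  let v := p.c0 * (M * (MM - XX - YY - ZZ) + 2 * X * YZ)
    + M * (p.c1 * (MM - ZZ) + p.c2 * (MM - YY) + p.c3 * (MM - XX)
    + p.c4 * (YZ - X * M) + p.c5 * (XZ - Y * M) + p.c6 * (XY - Z * M))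
  let gx := p.c0 * 2 * (YZ - X * M) - 2 * p.c3 * X * M - p.c4 * MM + (p.c5 * Z + p.c6 * Y) * M
  let gy := p.c0 * 2 * (XZ - Y * M) - 2 * p.c2 * Y * M - p.c5 * MM + (p.c4 * Z + p.c6 * X) * M
  let gz := p.c0 * 2 * (XY - Z * M) - 2 * p.c1 * Z * M - p.c6 * MM + (p.c4 * Y + p.c5 * X) * M
  let hxx := -(p.c0 + p.c3)
  let hyy := -(p.c0 + p.c2)
  let hzz := -(p.c0 + p.c1)
  let hxy := 2 * p.c0 * Z + p.c6 * M
  let hxz := 2 * p.c0 * Y + p.c5 * M
  let hyz := 2 * p.c0 * X + p.c4 * M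
  v - iabs gx * R - iabs gy * S - iabs gz * T
    + M * (ineg hxx * (R * R) + ineg hyy * (S * S) + ineg hzz * (T * T))
    - iabs hxy * (R * S) - iabs hxz * (R * T) - iabs hyz * (S * T)
    - 2 * iabs p.c0 * (R * (S * T))

theorem iabs_cast (a : ℤ) : ((iabs a : ℤ) : ℝ) = |(a : ℝ)| := by
  unfold iabs
  split_ifs with h
  · rw [abs_of_neg (by exact_mod_cast h)]; push_cast; ring
  · rw [abs_of_nonneg (by exact_mod_cast not_lt.1 h)]

theorem ineg_le (a : ℤ) : ((ineg a : ℤ) : ℝ) ≤ a ∧ ((ineg a : ℤ) : ℝ) ≤ 0 := by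
  unfold ineg
  split_ifs with h
  · exact ⟨le_refl _, by exact_mod_cast h.le⟩
  · exact ⟨by exact_mod_cast not_lt.1 h, by simp⟩

theorem mul_ge_neg (g u R : ℝ) (hu : |u| ≤ R) : -(|g| * R) ≤ g * u := by
  have h1 : |g * u| ≤ |g| * R := by rw [abs_mul]; exact mul_le_mul_of_nonneg_left hu (abs_nonneg g)
  exact neg_le_of_abs_le h1

theorem lbc_sound (p : Phi) (M X Y Z R S T : ℤ) (hM : 0 < M) (u v w : ℝ)
    (hu : |u| ≤ R) (hv : |v| ≤ S) (hw : |w| ≤ T) (h : 0 < lbc p M X Y Z R S T) :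
    0 < p.eval ((X + u) / M) ((Y + v) / M) ((Z + w) / M) := by
  have hM' : (0 : ℝ) < M := by exact_mod_cast hM
  have hR : (0 : ℝ) ≤ R := (abs_nonneg u).trans hu
  have hS : (0 : ℝ) ≤ S := (abs_nonneg v).trans hv
  have hT : (0 : ℝ) ≤ T := (abs_nonneg w).trans hw
  have key : ((lbc p M X Y Z R S T : ℤ) : ℝ) ≤
      (M : ℝ) ^ 3 * p.eval ((X + u) / M) ((Y + v) / M) ((Z + w) / M) := by
    have hexp : (M : ℝ) ^ 3 * p.eval ((X + u) / M) ((Y + v) / M) ((Z + w) / M) =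
        (p.c0 * (M * (M * M - X * X - Y * Y - Z * Z) + 2 * X * (Y * Z))
          + M * (p.c1 * (M * M - Z * Z) + p.c2 * (M * M - Y * Y) + p.c3 * (M * M - X * X)
          + p.c4 * (Y * Z - X * M) + p.c5 * (X * Z - Y * M) + p.c6 * (X * Y - Z * M)))
        + (p.c0 * 2 * (Y * Z - X * M) - 2 * p.c3 * X * M - p.c4 * (M * M) + (p.c5 * Z + p.c6 * Y) * M) * u
        + (p.c0 * 2 * (X * Z - Y * M) - 2 * p.c2 * Y * M - p.c5 * (M * M) + (p.c4 * Z + p.c6 * X) * M) * v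
        + (p.c0 * 2 * (X * Y - Z * M) - 2 * p.c1 * Z * M - p.c6 * (M * M) + (p.c4 * Y + p.c5 * X) * M) * w
        + M * (-(p.c0 + p.c3) * u ^ 2 + -(p.c0 + p.c2) * v ^ 2 + -(p.c0 + p.c1) * w ^ 2)
        + (2 * p.c0 * Z + p.c6 * M) * (u * v) + (2 * p.c0 * Y + p.c5 * M) * (u * w)
        + (2 * p.c0 * X + p.c4 * M) * (v * w) + (2 * p.c0) * (u * (v * w)) := by
      unfold Phi.eval
      field_simp
      ring
    rw [hexp]
    have e1 := mul_ge_neg (p.c0 * 2 * (Y * Z - X * M) - 2 * p.c3 * X * M - p.c4 * (M * M) + (p.c5 * Z + p.c6 * Y) * M) u R hu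
    have e2 := mul_ge_neg (p.c0 * 2 * (X * Z - Y * M) - 2 * p.c2 * Y * M - p.c5 * (M * M) + (p.c4 * Z + p.c6 * X) * M) v S hv
    have e3 := mul_ge_neg (p.c0 * 2 * (X * Y - Z * M) - 2 * p.c1 * Z * M - p.c6 * (M * M) + (p.c4 * Y + p.c5 * X) * M) w T hw
    have huv : |u * v| ≤ R * S := by rw [abs_mul]; exact mul_le_mul hu hv (abs_nonneg _) hR
    have huw : |u * w| ≤ R * T := by rw [abs_mul]; exact mul_le_mul hu hw (abs_nonneg _) hR
    have hvw : |v * w| ≤ S * T := by rw [abs_mul]; exact mul_le_mul hv hw (abs_nonneg _) hS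
    have huvw : |u * (v * w)| ≤ R * (S * T) := by
      rw [abs_mul]; exact mul_le_mul hu hvw (abs_nonneg _) hR
    have e4 := mul_ge_neg (2 * p.c0 * Z + p.c6 * M) (u * v) (R * S) huv
    have e5 := mul_ge_neg (2 * p.c0 * Y + p.c5 * M) (u * w) (R * T) huw
    have e6 := mul_ge_neg (2 * p.c0 * X + p.c4 * M) (v * w) (S * T) hvw
    have e7 := mul_ge_neg (2 * p.c0) (u * (v * w)) (R * (S * T)) huvw
    have hsq : ∀ (a : ℤ) (s : ℝ) (B : ℝ), |s| ≤ B → ((ineg a : ℤ) : ℝ) * (B * B) ≤ (a : ℝ) * s ^ 2 := by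
      intro a s B hs
      obtain ⟨n1, n2⟩ := ineg_le a
      have hs2 : s ^ 2 ≤ B * B := by
        have := abs_nonneg s
        calc s ^ 2 = |s| * |s| := by rw [← abs_mul, ← sq, abs_of_nonneg (sq_nonneg s)]
          _ ≤ B * B := mul_le_mul hs hs this (this.trans hs)
      nlinarith [sq_nonneg s]
    have f1 := hsq (-(p.c0 + p.c3)) u R hu
    have f2 := hsq (-(p.c0 + p.c2)) v S hv
    have f3 := hsq (-(p.c0 + p.c1)) w T hw
    have f4 : (M : ℝ) * (((ineg (-(p.c0 + p.c3)) : ℤ) : ℝ) * (R * R) + ((ineg (-(p.c0 + p.c2)) : ℤ) : ℝ) * (S * S)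
        + ((ineg (-(p.c0 + p.c1)) : ℤ) : ℝ) * (T * T)) ≤
        M * (-(p.c0 + p.c3) * u ^ 2 + -(p.c0 + p.c2) * v ^ 2 + -(p.c0 + p.c1) * w ^ 2) := by
      apply mul_le_mul_of_nonneg_left _ hM'.le
      push_cast at f1 f2 f3
      linarith
    unfold lbc
    simp only []
    push_cast [iabs_cast]
    have g7 : |(2 * (p.c0 : ℝ))| = 2 * |(p.c0 : ℝ)| := by rw [abs_mul]; norm_num
    rw [g7] at e7
    linarith
  have h1 : (0 : ℝ) < ((lbc p M X Y Z R S T : ℤ) : ℝ) := by exact_mod_cast h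
  have h2 : 0 < (M : ℝ) ^ 3 * p.eval ((X + u) / M) ((Y + v) / M) ((Z + w) / M) := lt_of_lt_of_le h1 key
  exact (pos_iff_pos_of_mul_pos h2).1 (by positivity)

/-- lower bound test on a box, with a sign (`true` = the point is the negative of the box point) -/
def lbBox (p : Phi) (neg : Bool) (b : Box) : Bool :=
  if neg then 0 < lbc p (2 * NN) (-(b.xl + b.xh)) (-(b.yl + b.yh)) (-(b.zl + b.zh))
    (b.xh - b.xl) (b.yh - b.yl) (b.zh - b.zl)
  else 0 < lbc p (2 * NN) (b.xl + b.xh) (b.yl + b.yh) (b.zl + b.zh)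
    (b.xh - b.xl) (b.yh - b.yl) (b.zh - b.zl)

/-- a point of a box -/
def Box.Mem (b : Box) (x y z : ℝ) : Prop :=
  (b.xl ≤ x * NN ∧ x * NN ≤ b.xh) ∧ (b.yl ≤ y * NN ∧ y * NN ≤ b.yh) ∧ (b.zl ≤ z * NN ∧ z * NN ≤ b.zh)

/-- the sign -/
noncomputable def sg (neg : Bool) : ℝ := if neg then -1 else 1

theorem lbBox_sound (p : Phi) (neg : Bool) (b : Box) (x y z : ℝ) (hb : b.Mem x y z)
    (h : lbBox p neg b = true) : 0 < p.eval (sg neg * x) (sg neg * y) (sg neg * z) := by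
  obtain ⟨⟨h1, h2⟩, ⟨h3, h4⟩, ⟨h5, h6⟩⟩ := hb
  have hN : (0 : ℝ) < ((NN : ℤ) : ℝ) := by norm_num [NN]
  cases neg with
  | false =>
    simp only [lbBox, Bool.false_eq_true, if_false, decide_eq_true_eq] at h
    have := lbc_sound p (2 * NN) (b.xl + b.xh) (b.yl + b.yh) (b.zl + b.zh)
      (b.xh - b.xl) (b.yh - b.yl) (b.zh - b.zl) (by norm_num [NN])
      (x * (2 * NN) - (b.xl + b.xh)) (y * (2 * NN) - (b.yl + b.yh)) (z * (2 * NN) - (b.zl + b.zh))
      (by push_cast; rw [abs_le]; constructor <;> linarith)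
      (by push_cast; rw [abs_le]; constructor <;> linarith)
      (by push_cast; rw [abs_le]; constructor <;> linarith) h
    have ex : ∀ (t : ℝ) (c : ℝ), (c + (t * (2 * NN) - c)) / (2 * NN) = t := by
      intro t c; field_simp; ring
    simp only [sg, Bool.false_eq_true, if_false, one_mul]
    push_cast at this
    rw [ex, ex, ex] at this
    exact this
  | true =>
    simp only [lbBox, if_true, decide_eq_true_eq] at h
    have := lbc_sound p (2 * NN) (-(b.xl + b.xh)) (-(b.yl + b.yh)) (-(b.zl + b.zh))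
      (b.xh - b.xl) (b.yh - b.yl) (b.zh - b.zl) (by norm_num [NN])
      (-x * (2 * NN) - (-(b.xl + b.xh))) (-y * (2 * NN) - (-(b.yl + b.yh))) (-z * (2 * NN) - (-(b.zl + b.zh)))
      (by push_cast; rw [abs_le]; constructor <;> linarith)
      (by push_cast; rw [abs_le]; constructor <;> linarith)
      (by push_cast; rw [abs_le]; constructor <;> linarith) h
    have ex : ∀ (t : ℝ) (c : ℝ), (c + (t * (2 * NN) - c)) / (2 * NN) = t := by
      intro t c; field_simp; ring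
    simp only [sg, if_true, neg_one_mul]
    push_cast at this
    rw [ex, ex, ex] at this
    exact this

end Pool.Agent.Helper12.LW
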