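import Mathlib
import Pool.Agent.Helper12.LW.Defs
import Pool.Agent.Helper38.LW.Wcs

/-! The corner lemma: one inequality at one form gives a lower bound for the weighted sum. -/

namespace Pool.Agent.Helper12.LW

open Matrix

/-- the pair sum of a form -/
noncomputable def pairSum (G : Matrix (Fin 3) (Fin 3) ℝ) (w : Fin 4 → ℝ) (q : Fin 4 → Fin 3 → ℝ) : ℝ :=
  w 0 * w 1 * qf G (q 0 - q 1) + w 0 * w 2 * qf G (q 0 - q 2)
    + w 0 * w 3 * qf G (q 0 - q 3) + w 1 * w 2 * qf G (q 1 - q 2)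
    + w 1 * w 3 * qf G (q 1 - q 3) + w 2 * w 3 * qf G (q 2 - q 3)

/-- the moved points -/
noncomputable def moved (P : Fin 4 → Fin 3 → ℤ) (z : Fin 3 → ℤ) (i : Fin 4) (τ : ℝ) (j : Fin 4) :
    Fin 3 → ℝ :=
  if j = i then (1 - τ) • toR (P i) + τ • toR z else toR (P j)

/-- the weights -/
noncomputable def wt (k : Fin 4) (ρ : ℝ) (j : Fin 4) : ℝ := if j = k then ρ / (2 - ρ) else 1

/-- the inverse weights -/
noncomputable def wi (k : Fin 4) (ρ : ℝ) (j : Fin 4) : ℝ := if j = k then (2 - ρ) / ρ else 1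

theorem adj_nonneg (A : Matrix (Fin 3) (Fin 3) ℝ) (hA : A.PosDef) (u : Fin 3 → ℝ) :
    0 ≤ qf A.adjugate u := by
  have hdet : 0 < A.det := hA.det_pos
  have hadj : A.adjugate.PosSemidef := by
    have : A.adjugate = A.det • A⁻¹ := by
      rw [Matrix.inv_def, smul_smul, Ring.inverse_eq_inv', mul_inv_cancel₀ hdet.ne', one_smul]
    rw [this]
    exact (hA.inv.posSemidef).smul hdet.le
  have := hadj.dotProduct_mulVec_nonneg u
  simpa [qf] using this

theorem corner (A : Matrix (Fin 3) (Fin 3) ℝ) (hA : A.PosDef) (c : ℝ) (K : Set (Fin 3 → ℝ))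
    (P : Fin 4 → Fin 3 → ℤ) (v : Fin 4 → Fin 3 → ℝ) (hv : Sep4 K P v)
    (z : Fin 3 → ℤ) (i k : Fin 4) (ρ ε τ : ℝ) (hρ0 : 0 < ρ) (hρ1 : ρ ≤ 1) (hτ0 : 0 ≤ τ)
    (hτε : 0 ≤ 1 - τ * ε) (hε : v i ⬝ᵥ (toR (P i) - toR z) ≤ ε)
    (hineq : c * pairSum A.adjugate (wt k ρ) (moved P z i τ) <
      (1 - τ * ε) ^ 2 * (A.det * (3 + ρ / (2 - ρ)))) : c < ∑ j, wi k ρ j * qf A (v j) := by
  have h2ρ : 0 < 2 - ρ := by linarith
  have hw0 : ∀ j, 0 < wt k ρ j := by
    intro j; unfold wt; split_ifs <;> positivity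
  have ha0 : ∀ j, 0 < wi k ρ j := by
    intro j; unfold wi; split_ifs <;> positivity
  have haw : ∀ j, wi k ρ j * wt k ρ j = 1 := by
    intro j; unfold wi wt; split_ifs
    · field_simp
    · ring
  have hcs := Pool.Agent.Helper38.LW.wcs A hA v (moved P z i τ) hv.sum_zero (wi k ρ) (wt k ρ) ha0 haw
  have hB : ∑ j, v j ⬝ᵥ moved P z i τ j = 1 - τ * (v i ⬝ᵥ (toR (P i) - toR z)) := by
    have h4 : ∀ j, v j ⬝ᵥ moved P z i τ j = v j ⬝ᵥ toR (P j)
        - (if j = i then τ * (v i ⬝ᵥ (toR (P i) - toR z)) else 0) := by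
      intro j
      unfold moved
      split_ifs with h
      · subst h
        simp only [dotProduct_add, dotProduct_smul, dotProduct_sub, smul_eq_mul]
        ring
      · ring
    simp only [h4, Finset.sum_sub_distrib, hv.norm_one]
    simp
  have hsumw : ∑ j, wt k ρ j = 3 + ρ / (2 - ρ) := by
    have : ∀ j, wt k ρ j = 1 + (if j = k then ρ / (2 - ρ) - 1 else 0) := by
      intro j; unfold wt; split_ifs <;> ring
    simp only [this, Finset.sum_add_distrib]
    simp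
    ring
  rw [hB, hsumw] at hcs
  have hdet : 0 < A.det := hA.det_pos
  have hpair : 0 ≤ pairSum A.adjugate (wt k ρ) (moved P z i τ) := by
    have hq := adj_nonneg A hA
    unfold pairSum
    have := hw0 0; have := hw0 1; have := hw0 2; have := hw0 3
    have := hq (moved P z i τ 0 - moved P z i τ 1)
    have := hq (moved P z i τ 0 - moved P z i τ 2)
    have := hq (moved P z i τ 0 - moved P z i τ 3)
    have := hq (moved P z i τ 1 - moved P z i τ 2)
    have := hq (moved P z i τ 1 - moved P z i τ 3)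
    have := hq (moved P z i τ 2 - moved P z i τ 3)
    positivity
  have h5 : (1 - τ * ε) ^ 2 ≤ (1 - τ * (v i ⬝ᵥ (toR (P i) - toR z))) ^ 2 := by
    apply pow_le_pow_left₀ hτε
    nlinarith
  have h6 : 0 ≤ A.det * (3 + ρ / (2 - ρ)) := by positivity
  have h8 : (1 - τ * ε) ^ 2 * (A.det * (3 + ρ / (2 - ρ))) ≤
      (1 - τ * (v i ⬝ᵥ (toR (P i) - toR z))) ^ 2 * (A.det * (3 + ρ / (2 - ρ))) :=
    mul_le_mul_of_nonneg_right h5 h6
  by_contra hcon
  push Not at hcon
  have h7 : (∑ j, wi k ρ j * qf A (v j)) * pairSum A.adjugate (wt k ρ) (moved P z i τ) ≤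
      c * pairSum A.adjugate (wt k ρ) (moved P z i τ) :=
    mul_le_mul_of_nonneg_right hcon hpair
  unfold pairSum at h7 hineq
  linarith

end Pool.Agent.Helper12.LW
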