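import Mathlib
import Pool.Agent.Helper12.LW.Defs
import Pool.Agent.Helper12.LW.Poly
import Pool.Agent.Helper12.LW.Step

/-! The condition polynomials and their meaning. -/

namespace Pool.Agent.Helper12.LW

open Matrix

/-- integer vector -/
structure V3 where
  a : ℤ
  b : ℤ
  c : ℤ

/-- difference -/
def V3.sub (u v : V3) : V3 := ⟨u.a - v.a, u.b - v.b, u.c - v.c⟩

/-- combination -/
def V3.comb (s t : ℤ) (u v : V3) : V3 := ⟨s * u.a + t * v.a, s * u.b + t * v.b, s * u.c + t * v.c⟩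

/-- multiple -/
def V3.smul (s : ℤ) (u : V3) : V3 := ⟨s * u.a, s * u.b, s * u.c⟩

/-- the function of an integer vector -/
def V3.fn (u : V3) : Fin 3 → ℤ := ![u.a, u.b, u.c]

/-- scale of the thresholds -/
def RR : ℤ := 200

/-- scale of the multipliers -/
def TT : ℤ := 20

/-- `c0 D - W ∑ w (form of the differences)` -/
def pairPhi (c0 W : ℤ) (w01 w02 w03 w12 w13 w23 : ℤ) (q0 q1 q2 q3 : V3) : Phi :=
  let d01 := q0.sub q1
  let d02 := q0.sub q2
  let d03 := q0.sub q3
  let d12 := q1.sub q2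
  let d13 := q1.sub q3
  let d23 := q2.sub q3
  ⟨c0,
   -(W * (w01 * (d01.a * d01.a) + w02 * (d02.a * d02.a) + w03 * (d03.a * d03.a)
    + w12 * (d12.a * d12.a) + w13 * (d13.a * d13.a) + w23 * (d23.a * d23.a))),
   -(W * (w01 * (d01.b * d01.b) + w02 * (d02.b * d02.b) + w03 * (d03.b * d03.b)
    + w12 * (d12.b * d12.b) + w13 * (d13.b * d13.b) + w23 * (d23.b * d23.b))),
   -(W * (w01 * (d01.c * d01.c) + w02 * (d02.c * d02.c) + w03 * (d03.c * d03.c)
    + w12 * (d12.c * d12.c) + w13 * (d13.c * d13.c) + w23 * (d23.c * d23.c))),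
   -(2 * W * (w01 * (d01.a * d01.b) + w02 * (d02.a * d02.b) + w03 * (d03.a * d03.b)
    + w12 * (d12.a * d12.b) + w13 * (d13.a * d13.b) + w23 * (d23.a * d23.b))),
   -(2 * W * (w01 * (d01.a * d01.c) + w02 * (d02.a * d02.c) + w03 * (d03.a * d03.c)
    + w12 * (d12.a * d12.c) + w13 * (d13.a * d13.c) + w23 * (d23.a * d23.c))),
   -(2 * W * (w01 * (d01.b * d01.c) + w02 * (d02.b * d02.c) + w03 * (d03.b * d03.c)
    + w12 * (d12.b * d12.c) + w13 * (d13.b * d13.c) + w23 * (d23.b * d23.c)))⟩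

/-- the condition polynomial -/
def condPhi (p0 p1 p2 p3 z : V3) (i k : ℕ) (r r' t : ℤ) : Phi :=
  let e := 2 * RR - r
  let s := RR * TT - t * (RR - r')
  let q0 := if i = 0 then V3.comb (TT - t) t p0 z else V3.smul TT p0
  let q1 := if i = 1 then V3.comb (TT - t) t p1 z else V3.smul TT p1
  let q2 := if i = 2 then V3.comb (TT - t) t p2 z else V3.smul TT p2
  let q3 := if i = 3 then V3.comb (TT - t) t p3 z else V3.smul TT p3
  pairPhi (507 * ((3 * RR - r) * (s * s))) (100 * (RR * RR))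
    (if k = 0 then r else if k = 1 then r else e) (if k = 0 then r else if k = 2 then r else e)
    (if k = 0 then r else if k = 3 then r else e) (if k = 1 then r else if k = 2 then r else e)
    (if k = 1 then r else if k = 3 then r else e) (if k = 2 then r else if k = 3 then r else e)
    q0 q1 q2 q3

theorem qf_adj (x y z : ℝ) (u : Fin 3 → ℝ) : qf (Mm x y z).adjugate u =
    u 0 ^ 2 * (1 - z ^ 2) + u 1 ^ 2 * (1 - y ^ 2) + u 2 ^ 2 * (1 - x ^ 2)
      + 2 * (u 0 * u 1) * (y * z - x) + 2 * (u 0 * u 2) * (x * z - y) + 2 * (u 1 * u 2) * (x * y - z) := by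
  simp [qf, Mm, Matrix.adjugate_fin_three, Matrix.mulVec, dotProduct, Fin.sum_univ_three]
  ring

theorem det_Mm (x y z : ℝ) : (Mm x y z).det = 1 + 2 * x * y * z - x ^ 2 - y ^ 2 - z ^ 2 := by
  simp [Mm, Matrix.det_fin_three]
  ring

/-- real vector of an integer vector -/
noncomputable def V3.re (u : V3) : Fin 3 → ℝ := ![(u.a : ℝ), u.b, u.c]

theorem re_fn (u : V3) : toR u.fn = u.re := by
  funext i; fin_cases i <;> simp [toR, V3.fn, V3.re]

theorem pairPhi_eval (c0 W w01 w02 w03 w12 w13 w23 : ℤ) (q0 q1 q2 q3 : V3) (x y z : ℝ) :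
    (pairPhi c0 W w01 w02 w03 w12 w13 w23 q0 q1 q2 q3).eval x y z =
      c0 * (Mm x y z).det - W * (w01 * qf (Mm x y z).adjugate (q0.re - q1.re)
        + w02 * qf (Mm x y z).adjugate (q0.re - q2.re) + w03 * qf (Mm x y z).adjugate (q0.re - q3.re)
        + w12 * qf (Mm x y z).adjugate (q1.re - q2.re) + w13 * qf (Mm x y z).adjugate (q1.re - q3.re)
        + w23 * qf (Mm x y z).adjugate (q2.re - q3.re)) := by
  simp only [qf_adj, det_Mm, Phi.eval, pairPhi, V3.sub, V3.re, Pi.sub_apply, Matrix.cons_val_zero,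
    Matrix.cons_val_one, Matrix.cons_val]
  push_cast
  ring

theorem qf_smul (A : Matrix (Fin 3) (Fin 3) ℝ) (c : ℝ) (u : Fin 3 → ℝ) :
    qf A (c • u) = c ^ 2 * qf A u := by
  simp only [qf, Matrix.mulVec_smul, dotProduct_smul, smul_dotProduct, smul_eq_mul]
  ring

end Pool.Agent.Helper12.LW
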