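import Mathlib
import Pool.Agent.Helper12.LW.Cond

/-! Soundness of the condition polynomials. -/

namespace Pool.Agent.Helper12.LW

open Matrix

theorem toR_add (u v : Fin 3 → ℤ) : toR (u + v) = toR u + toR v := by
  funext i; simp [toR]

theorem re_comb (s t : ℤ) (u v : V3) : (V3.comb s t u v).re = (s : ℝ) • u.re + (t : ℝ) • v.re := by
  funext i; fin_cases i <;> simp [V3.re, V3.comb]

theorem re_smul (s : ℤ) (u : V3) : (V3.smul s u).re = (s : ℝ) • u.re := by
  funext i; fin_cases i <;> simp [V3.re, V3.smul]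

theorem cond_sound (K : Set (Fin 3 → ℝ)) (x y z : ℝ) (hA : (Mm x y z).PosDef) (P : Fin 4 → Fin 3 → ℤ)
    (v : Fin 4 → Fin 3 → ℝ) (hv : Sep4 K P v) (z0 : Fin 3 → ℤ) (p0 p1 p2 p3 zr : V3)
    (h0 : P 0 = z0 + p0.fn) (h1 : P 1 = z0 + p1.fn) (h2 : P 2 = z0 + p2.fn) (h3 : P 3 = z0 + p3.fn)
    (i k : Fin 4) (r r' t : ℤ) (hr0 : 0 < r) (hr1 : r ≤ RR) (ht0 : 0 ≤ t) (ht1 : t ≤ TT)
    (hr'0 : 0 ≤ r')
    (hε : v i ⬝ᵥ (toR (P i) - toR (z0 + zr.fn)) ≤ ((RR - r' : ℤ) : ℝ) / RR)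
    (h : 0 < (condPhi p0 p1 p2 p3 zr i k r r' t).eval x y z) :
    200 / 507 < ∑ j, wi k ((r : ℝ) / 200) j * qf (Mm x y z) (v j) := by
  have hRR : (RR : ℝ) = 200 := by norm_num [RR]
  have hTT : (TT : ℝ) = 20 := by norm_num [TT]
  have hr0' : (0 : ℝ) < r := by exact_mod_cast hr0
  have hr1' : (r : ℝ) ≤ 200 := by rw [← hRR]; exact_mod_cast hr1
  have ht0' : (0 : ℝ) ≤ t := by exact_mod_cast ht0
  have ht1' : (t : ℝ) ≤ 20 := by rw [← hTT]; exact_mod_cast ht1
  have hr'0' : (0 : ℝ) ≤ r' := by exact_mod_cast hr'0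
  have he : (0 : ℝ) < 400 - r := by linarith
  -- the moved points
  set τ : ℝ := (t : ℝ) / 20 with hτ
  set m := moved P (z0 + zr.fn) i τ with hm
  set q0 := if (i : ℕ) = 0 then V3.comb (TT - t) t p0 zr else V3.smul TT p0 with hq0
  set q1 := if (i : ℕ) = 1 then V3.comb (TT - t) t p1 zr else V3.smul TT p1 with hq1
  set q2 := if (i : ℕ) = 2 then V3.comb (TT - t) t p2 zr else V3.smul TT p2 with hq2
  set q3 := if (i : ℕ) = 3 then V3.comb (TT - t) t p3 zr else V3.smul TT p3 with hq3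
  have hmv : ∀ (j : Fin 4) (p : V3), P j = z0 + p.fn →
      m j = toR z0 + (1 / 20 : ℝ) • (if (i : ℕ) = (j : ℕ) then V3.comb (TT - t) t p zr else V3.smul TT p).re := by
    intro j p hp
    simp only [hm, moved]
    by_cases hij : j = i
    · subst hij
      rw [if_pos rfl, if_pos rfl, hp, toR_add, toR_add, re_comb, re_fn, re_fn]
      push_cast
      rw [hTT]
      funext l
      simp only [Pi.add_apply, Pi.smul_apply, smul_eq_mul, hτ]
      ring
    · have hij' : ¬ ((i : ℕ) = (j : ℕ)) := fun h => hij (Fin.ext h).symm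
      rw [if_neg hij, if_neg hij', hp, toR_add, re_smul, re_fn, hTT]
      funext l
      simp only [Pi.add_apply, Pi.smul_apply, smul_eq_mul]
      ring
  have hm0 : m 0 = toR z0 + (1 / 20 : ℝ) • q0.re := hmv 0 p0 h0
  have hm1 : m 1 = toR z0 + (1 / 20 : ℝ) • q1.re := hmv 1 p1 h1
  have hm2 : m 2 = toR z0 + (1 / 20 : ℝ) • q2.re := hmv 2 p2 h2
  have hm3 : m 3 = toR z0 + (1 / 20 : ℝ) • q3.re := hmv 3 p3 h3
  set G := (Mm x y z).adjugate with hG
  have hdiff : ∀ a b : Fin 3 → ℝ, qf G ((toR z0 + (1 / 20 : ℝ) • a) - (toR z0 + (1 / 20 : ℝ) • b)) =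
      1 / 400 * qf G (a - b) := by
    intro a b
    have : (toR z0 + (1 / 20 : ℝ) • a) - (toR z0 + (1 / 20 : ℝ) • b) = (1 / 20 : ℝ) • (a - b) := by
      rw [smul_sub]; abel
    rw [this, qf_smul]
    norm_num
  set e : ℤ := 2 * RR - r with hee
  have hee' : (e : ℝ) = 400 - r := by rw [hee]; push_cast; rw [hRR]; ring
  have hρ2 : (2 : ℝ) - r / 200 = (400 - r) / 200 := by ring
  have hwt : ∀ j : Fin 4, wt k ((r : ℝ) / 200) j = if (k : ℕ) = (j : ℕ) then (r : ℝ) / (400 - r) else 1 := by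
    intro j
    unfold wt
    by_cases hkj : j = k
    · rw [if_pos hkj, if_pos (by rw [hkj]), hρ2]
      field_simp
    · rw [if_neg hkj, if_neg (fun h => hkj (Fin.ext h).symm)]
  have hpair : pairSum G (wt k ((r : ℝ) / 200)) m = 1 / 400 / (400 - r) *
      (((if (k : ℕ) = 0 then r else if (k : ℕ) = 1 then r else e : ℤ) : ℝ) * qf G (q0.re - q1.re)
      + ((if (k : ℕ) = 0 then r else if (k : ℕ) = 2 then r else e : ℤ) : ℝ) * qf G (q0.re - q2.re)
      + ((if (k : ℕ) = 0 then r else if (k : ℕ) = 3 then r else e : ℤ) : ℝ) * qf G (q0.re - q3.re)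
      + ((if (k : ℕ) = 1 then r else if (k : ℕ) = 2 then r else e : ℤ) : ℝ) * qf G (q1.re - q2.re)
      + ((if (k : ℕ) = 1 then r else if (k : ℕ) = 3 then r else e : ℤ) : ℝ) * qf G (q1.re - q3.re)
      + ((if (k : ℕ) = 2 then r else if (k : ℕ) = 3 then r else e : ℤ) : ℝ) * qf G (q2.re - q3.re)) := by
    unfold pairSum
    rw [hm0, hm1, hm2, hm3]
    simp only [hdiff, hwt]
    have hcast : ∀ (c : Prop) [Decidable c] (a b : ℤ), ((if c then a else b : ℤ) : ℝ) = if c then (a : ℝ) else b := by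
      intro c _ a b; split_ifs <;> rfl
    simp only [hcast, hee']
    fin_cases k <;> simp <;> field_simp <;> ring
  have hcond : 0 < 507 * ((600 - (r : ℝ)) * ((4000 - t * (200 - r')) * (4000 - t * (200 - r')))) * (Mm x y z).det
      - 4000000 * (((if (k : ℕ) = 0 then r else if (k : ℕ) = 1 then r else e : ℤ) : ℝ) * qf G (q0.re - q1.re)
      + ((if (k : ℕ) = 0 then r else if (k : ℕ) = 2 then r else e : ℤ) : ℝ) * qf G (q0.re - q2.re)
      + ((if (k : ℕ) = 0 then r else if (k : ℕ) = 3 then r else e : ℤ) : ℝ) * qf G (q0.re - q3.re)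
      + ((if (k : ℕ) = 1 then r else if (k : ℕ) = 2 then r else e : ℤ) : ℝ) * qf G (q1.re - q2.re)
      + ((if (k : ℕ) = 1 then r else if (k : ℕ) = 3 then r else e : ℤ) : ℝ) * qf G (q1.re - q3.re)
      + ((if (k : ℕ) = 2 then r else if (k : ℕ) = 3 then r else e : ℤ) : ℝ) * qf G (q2.re - q3.re)) := by
    have := h
    unfold condPhi at this
    simp only [] at this
    rw [pairPhi_eval] at this
    have e1 : ((507 * ((3 * RR - r) * ((RR * TT - t * (RR - r')) * (RR * TT - t * (RR - r')))) : ℤ) : ℝ) =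
        507 * ((600 - (r : ℝ)) * ((4000 - t * (200 - r')) * (4000 - t * (200 - r')))) := by
      push_cast; rw [hRR, hTT]; ring
    have e2 : ((100 * (RR * RR) : ℤ) : ℝ) = 4000000 := by
      push_cast; rw [hRR]; norm_num
    rw [e1, e2] at this
    exact this
  refine corner (Mm x y z) hA (200 / 507) K P v hv (z0 + zr.fn) i k ((r : ℝ) / 200) ((200 - (r' : ℝ)) / 200) τ
    (by positivity) (by rw [div_le_one (by norm_num)]; exact hr1') (by positivity) ?_ ?_ ?_
  · have : τ ≤ 1 := by rw [hτ, div_le_one (by norm_num)]; exact ht1'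
    have h4 : (200 - (r' : ℝ)) / 200 ≤ 1 := by rw [div_le_one (by norm_num)]; linarith
    have h5 : 0 ≤ τ := by positivity
    by_cases h6 : 0 ≤ (200 - (r' : ℝ)) / 200
    · nlinarith
    · push Not at h6
      nlinarith
  · rw [hRR] at hε
    push_cast at hε
    rw [hRR] at hε
    exact hε
  · rw [← hG, ← hm, hpair]
    set S := ((if (k : ℕ) = 0 then r else if (k : ℕ) = 1 then r else e : ℤ) : ℝ) * qf G (q0.re - q1.re)
      + ((if (k : ℕ) = 0 then r else if (k : ℕ) = 2 then r else e : ℤ) : ℝ) * qf G (q0.re - q2.re)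
      + ((if (k : ℕ) = 0 then r else if (k : ℕ) = 3 then r else e : ℤ) : ℝ) * qf G (q0.re - q3.re)
      + ((if (k : ℕ) = 1 then r else if (k : ℕ) = 2 then r else e : ℤ) : ℝ) * qf G (q1.re - q2.re)
      + ((if (k : ℕ) = 1 then r else if (k : ℕ) = 3 then r else e : ℤ) : ℝ) * qf G (q1.re - q3.re)
      + ((if (k : ℕ) = 2 then r else if (k : ℕ) = 3 then r else e : ℤ) : ℝ) * qf G (q2.re - q3.re) with hSd
    set D := (Mm x y z).det with hD
    have e3 : (1 - τ * ((200 - (r' : ℝ)) / 200)) ^ 2 * (D * (3 + (r : ℝ) / 200 / (2 - (r : ℝ) / 200))) =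
        (507 * ((600 - (r : ℝ)) * ((4000 - t * (200 - r')) * (4000 - t * (200 - r')))) * D) *
          (2 / (507 * 16000000 * (400 - r))) := by
      rw [hρ2, hτ]
      field_simp
      ring
    have e4 : 200 / 507 * (1 / 400 / (400 - (r : ℝ)) * S) = (4000000 * S) * (2 / (507 * 16000000 * (400 - r))) := by
      field_simp
      ring
    rw [e3, e4]
    apply mul_lt_mul_of_pos_right _ (by positivity)
    linarith

end Pool.Agent.Helper12.LW
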