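import Mathlib
import Pool.Agent.Helper12.LW.CondS
import Pool.Agent.Helper38.LW.Feas
import Pool.Agent.Helper1.UB.LW

/-! Cells: convex combinations of four rational forms, and the threshold walk. -/

namespace Pool.Agent.Helper12.LW

open Matrix

/-- denominator of the corners -/
def CM : ℤ := 96

/-- value of a polynomial at a corner -/
noncomputable def evalc (p : Phi) (c : V3) : ℝ := p.eval ((c.a : ℝ) / 96) ((c.b : ℝ) / 96) ((c.c : ℝ) / 96)

/-- twelve multipliers -/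
structure Tab where
  t01 : ℤ
  t02 : ℤ
  t03 : ℤ
  t10 : ℤ
  t12 : ℤ
  t13 : ℤ
  t20 : ℤ
  t21 : ℤ
  t23 : ℤ
  t30 : ℤ
  t31 : ℤ
  t32 : ℤ

/-- one step of a chain certificate: the next threshold and the multipliers at the four corners -/
structure St where
  r : ℤ
  T0 : Tab
  T1 : Tab
  T2 : Tab
  T3 : Tab

/-- the last threshold -/
def lastR : ℤ → List St → ℤ
  | r, [] => r
  | _, s :: l => lastR s.r l

/-- the conditions after the first step -/
def GR (p0 p1 p2 p3 z : V3) (cs : Fin 4 → V3) : ℤ → List St → Prop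
  | r, [] => ∀ k c : Fin 4, 0 < evalc (condPhi p0 p1 p2 p3 p0 0 k r RR 0) (cs c)
  | r, s :: l => (3 * RR ≤ 4 * s.r ∧ s.r ≤ r) ∧
      (∀ i k : Fin 4, i ≠ k → ∀ c : Fin 4, ∃ t : ℤ, 0 ≤ t ∧ t ≤ TT ∧
        0 < evalc (condPhi p0 p1 p2 p3 z i k r s.r t) (cs c)) ∧ GR p0 p1 p2 p3 z cs s.r l

/-- a good chain on a cell -/
def GoodChain (p0 p1 p2 p3 : V3) (cs : Fin 4 → V3) : Prop :=
  (∀ c : Fin 4, 0 < evalc (condPhi p0 p1 p2 p3 p0 0 0 RR RR 0) (cs c)) ∨
    ∃ (z : V3) (r1 : ℤ) (l : List St), (3 * RR ≤ 4 * r1 ∧ r1 ≤ RR) ∧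
      (∀ i : Fin 4, ∃ (k : Fin 4), ∀ c : Fin 4, ∃ t : ℤ, 0 ≤ t ∧ t ≤ TT ∧
        0 < evalc (condPhi p0 p1 p2 p3 z i k RR r1 t) (cs c)) ∧ GR p0 p1 p2 p3 z cs r1 l

theorem GR_last {p0 p1 p2 p3 z : V3} {cs : Fin 4 → V3} (l : List St) : ∀ (r : ℤ), 3 * RR ≤ 4 * r →
    GR p0 p1 p2 p3 z cs r l → 3 * RR ≤ 4 * lastR r l := by
  induction l with
  | nil => intro r hr _; exact hr
  | cons s l ih => intro r hr h; exact ih s.r h.1.1 h.2.2

/-- a point of a cell -/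
structure InCell (cs : Fin 4 → V3) (lam : Fin 4 → ℝ) (X Y Z : ℝ) : Prop where
  nonneg : ∀ c, 0 ≤ lam c
  sum : ∑ c, lam c = 1
  eX : X = ∑ c, lam c * ((cs c).a / 96 : ℝ)
  eY : Y = ∑ c, lam c * ((cs c).b / 96 : ℝ)
  eZ : Z = ∑ c, lam c * ((cs c).c / 96 : ℝ)

/-- the form at a corner -/
noncomputable def Mc (c : V3) : Matrix (Fin 3) (Fin 3) ℝ := Mm ((c.a : ℝ) / 96) ((c.b : ℝ) / 96) ((c.c : ℝ) / 96)

theorem qf_cell {cs : Fin 4 → V3} {lam : Fin 4 → ℝ} {X Y Z : ℝ} (h : InCell cs lam X Y Z)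
    (v : Fin 3 → ℝ) : qf (Mm X Y Z) v = ∑ c, lam c * qf (Mc (cs c)) v := by
  have h1 := h.sum
  have eX := h.eX
  have eY := h.eY
  have eZ := h.eZ
  have hq : ∀ a b c : ℝ, qf (Mm a b c) v = (v 0 ^ 2 + v 1 ^ 2 + v 2 ^ 2) + 2 * (v 0 * v 1) * a
      + 2 * (v 0 * v 2) * b + 2 * (v 1 * v 2) * c := by
    intro a b c
    simp [qf, Mm, Matrix.mulVec, dotProduct, Fin.sum_univ_three]
    ring
  simp only [Mc, hq]
  have e : ∑ c, lam c * (v 0 ^ 2 + v 1 ^ 2 + v 2 ^ 2 + 2 * (v 0 * v 1) * ((cs c).a / 96 : ℝ)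
      + 2 * (v 0 * v 2) * ((cs c).b / 96 : ℝ) + 2 * (v 1 * v 2) * ((cs c).c / 96 : ℝ)) =
      (v 0 ^ 2 + v 1 ^ 2 + v 2 ^ 2) * ∑ c, lam c + 2 * (v 0 * v 1) * ∑ c, lam c * ((cs c).a / 96 : ℝ)
      + 2 * (v 0 * v 2) * ∑ c, lam c * ((cs c).b / 96 : ℝ)
      + 2 * (v 1 * v 2) * ∑ c, lam c * ((cs c).c / 96 : ℝ) := by
    simp only [Finset.mul_sum, ← Finset.sum_add_distrib]
    refine Finset.sum_congr rfl fun c _ => ?_
    ring
  rw [e, h1, ← eX, ← eY, ← eZ, mul_one]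

theorem cell_false (K : Set (Fin 3 → ℝ)) {cs : Fin 4 → V3} {lam : Fin 4 → ℝ} {X Y Z : ℝ}
    (h : InCell cs lam X Y Z) (μ : ℝ) (hμ : μ ≤ 100 / 507) (hpos : PosAt K (Mm X Y Z) μ)
    (P : Fin 4 → Fin 3 → ℤ) (v : Fin 4 → Fin 3 → ℝ) (hv : Sep4 K P v) (k : Fin 4) (ρ : ℝ)
    (hρ0 : 0 < ρ) (hρ1 : ρ ≤ 1) (hk : ∀ x ∈ K, v k ⬝ᵥ (toR (P k) - x) ≤ ρ)
    (hc : ∀ c, 200 / 507 < ∑ j, wi k ρ j * qf (Mc (cs c)) (v j)) : False := by
  have h2ρ : 0 < 2 - ρ := by linarith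
  have hfe := Pool.Agent.Helper38.LW.feas K P v hv k ρ hρ0 hρ1 hk
  have h1 : ∑ j, wi k ρ j * qf (Mm X Y Z) (v j) ≤ 2 * μ := by
    have h2 := hpos (fun j => if j = k then (2 - ρ) / (2 * ρ) else 1 / 2) v
      (by intro j; split_ifs <;> positivity) hfe
    have h3 : ∑ j, wi k ρ j * qf (Mm X Y Z) (v j) =
        2 * ∑ j, (if j = k then (2 - ρ) / (2 * ρ) else 1 / 2) * qf (Mm X Y Z) (v j) := by
      rw [Finset.mul_sum]
      refine Finset.sum_congr rfl fun j _ => ?_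
      unfold wi
      split_ifs
      · field_simp
      · ring
    linarith
  have h4 : ∑ j, wi k ρ j * qf (Mm X Y Z) (v j) =
      ∑ c, lam c * ∑ j, wi k ρ j * qf (Mc (cs c)) (v j) := by
    simp only [qf_cell h, Finset.mul_sum]
    rw [Finset.sum_comm]
    refine Finset.sum_congr rfl fun c _ => ?_
    refine Finset.sum_congr rfl fun j _ => ?_
    ring
  have h5 : 200 / 507 < ∑ c, lam c * ∑ j, wi k ρ j * qf (Mc (cs c)) (v j) := by
    have h6 : (200 / 507 : ℝ) = ∑ c, lam c * (200 / 507) := by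
      rw [← Finset.sum_mul, h.sum, one_mul]
    rw [h6]
    apply Finset.sum_lt_sum
    · intro c _
      exact mul_le_mul_of_nonneg_left (hc c).le (h.nonneg c)
    · by_contra hcon
      push Not at hcon
      have h7 : ∀ c, lam c = 0 := by
        intro c
        have h8 := hcon c (Finset.mem_univ c)
        have h9 := hc c
        have h10 := h.nonneg c
        by_contra hne
        have h11 : 0 < lam c := lt_of_le_of_ne h10 (Ne.symm hne)
        have := mul_lt_mul_of_pos_left h9 h11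
        linarith
      have h12 := h.sum
      simp [h7] at h12
  linarith

theorem chain_false (K : Set (Fin 3 → ℝ)) (hK : LFree K) {cs : Fin 4 → V3} {lam : Fin 4 → ℝ} {X Y Z : ℝ}
    (hcell : InCell cs lam X Y Z) (hcs : ∀ c, (Mc (cs c)).PosDef) (μ : ℝ)
    (hμ : μ ≤ 100 / 507) (hpos : PosAt K (Mm X Y Z) μ) (P : Fin 4 → Fin 3 → ℤ)
    (v : Fin 4 → Fin 3 → ℝ) (hv : Sep4 K P v) (z0 : Fin 3 → ℤ) (p0 p1 p2 p3 : V3)
    (h0 : P 0 = z0 + p0.fn) (h1 : P 1 = z0 + p1.fn) (h2 : P 2 = z0 + p2.fn) (h3 : P 3 = z0 + p3.fn)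
    (hg : GoodChain p0 p1 p2 p3 cs) : False := by
  have hRR : (RR : ℝ) = 200 := by norm_num [RR]
  have hRR' : RR = 200 := rfl
  have hTT' : TT = 20 := rfl
  have hKne : K.Nonempty := hK.interior_nonempty.mono interior_subset
  have hcont : ∀ k, Continuous (fun x : Fin 3 → ℝ => v k ⬝ᵥ (toR (P k) - x)) := by
    intro k
    unfold dotProduct
    fun_prop
  have hmax : ∀ k, ∃ x ∈ K, ∀ y ∈ K, v k ⬝ᵥ (toR (P k) - y) ≤ v k ⬝ᵥ (toR (P k) - x) := by
    intro k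
    obtain ⟨x, hx, hmx⟩ := hK.compact.exists_isMaxOn hKne (hcont k).continuousOn
    exact ⟨x, hx, fun y hy => hmx hy⟩
  choose xx hxK hxm using hmax
  set ρ : Fin 4 → ℝ := fun k => v k ⬝ᵥ (toR (P k) - xx k) with hρ
  have hle1 : ∀ k, ∀ x ∈ K, v k ⬝ᵥ (toR (P k) - x) ≤ 1 := by
    intro k x hx
    have hs : ∑ j, v j ⬝ᵥ (toR (P j) - x) = 1 := by
      have h4 : ∑ j, v j ⬝ᵥ x = (∑ j, v j) ⬝ᵥ x := by rw [sum_dotProduct]
      simp only [dotProduct_sub, Finset.sum_sub_distrib, hv.norm_one, h4, hv.sum_zero, zero_dotProduct, sub_zero]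
    have hnn : ∀ j, 0 ≤ v j ⬝ᵥ (toR (P j) - x) := by
      intro j
      rw [dotProduct_sub]
      linarith [hv.sep j x hx]
    calc v k ⬝ᵥ (toR (P k) - x) ≤ ∑ j, v j ⬝ᵥ (toR (P j) - x) :=
          Finset.single_le_sum (f := fun j => v j ⬝ᵥ (toR (P j) - x)) (fun j _ => hnn j) (Finset.mem_univ k)
      _ = 1 := hs
  -- the condition at all corners gives a contradiction
  have hcase : ∀ (z : V3) (i k : Fin 4) (r r' : ℤ), 0 < r → r ≤ RR → 0 ≤ r' →
      v i ⬝ᵥ (toR (P i) - toR (z0 + z.fn)) ≤ ((RR - r' : ℤ) : ℝ) / RR →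
      (∀ x ∈ K, v k ⬝ᵥ (toR (P k) - x) ≤ (r : ℝ) / RR) →
      (∀ c : Fin 4, ∃ t : ℤ, 0 ≤ t ∧ t ≤ TT ∧ 0 < evalc (condPhi p0 p1 p2 p3 z i k r r' t) (cs c)) →
      False := by
    intro z i k r r' hr0 hr1 hr' hε hk h
    have hr0' : (0 : ℝ) < r := by exact_mod_cast hr0
    have hr1' : (r : ℝ) ≤ 200 := by rw [← hRR]; exact_mod_cast hr1
    refine cell_false K hcell μ hμ hpos P v hv k ((r : ℝ) / 200) (by positivity)
      (by rw [div_le_one (by norm_num)]; exact hr1') (by rw [hRR] at hk; exact hk) ?_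
    intro c
    obtain ⟨t, ht0, ht1, ht⟩ := h c
    exact cond_sound K _ _ _ (hcs c) P v hv z0 p0 p1 p2 p3 z h0 h1 h2 h3 i k r r' t hr0 hr1 ht0 ht1 hr' hε ht
  -- the threshold conditions
  have halpha : ∀ (k : Fin 4) (r : ℤ), 0 < r → r ≤ RR → ρ k ≤ (r : ℝ) / RR →
      (∀ c : Fin 4, 0 < evalc (condPhi p0 p1 p2 p3 p0 0 k r RR 0) (cs c)) → False := by
    intro k r hr0 hr1 hk h
    refine hcase p0 0 k r RR hr0 hr1 (by rw [hRR']; norm_num) ?_ ?_
      (fun c => ⟨0, le_rfl, by rw [hTT']; norm_num, h c⟩)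
    · rw [h0, sub_self, dotProduct_zero, sub_self]; simp
    · intro x hx; exact (hxm k x hx).trans hk
  rcases hg with hA' | ⟨z, r1, l, ⟨hr1a, hr1b⟩, hfirst, hrest⟩
  · refine hcase p0 0 0 RR RR (by rw [hRR']; norm_num) le_rfl (by rw [hRR']; norm_num) ?_ ?_
      (fun c => ⟨0, le_rfl, by rw [hTT']; norm_num, hA' c⟩)
    · rw [h0, sub_self, dotProduct_zero, sub_self]; simp
    · intro x hx
      have e1 : ((RR : ℤ) : ℝ) / RR = 1 := by rw [hRR]; norm_num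
      rw [e1]
      exact hle1 0 x hx
  · have hlast := GR_last l r1 hr1a hrest
    -- the first alternative
    have hU : ∀ (l : List St) (r : ℤ), 3 * RR ≤ 4 * r → r ≤ RR → GR p0 p1 p2 p3 z cs r l →
        (∃ k, ρ k < (lastR r l : ℝ) / RR) → False := by
      intro l
      induction l with
      | nil =>
        intro r hr hr' hG hk
        obtain ⟨k, hk⟩ := hk
        exact halpha k r (by omega) hr' hk.le (hG k)
      | cons s l ih =>
        intro r hr hr' hG hk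
        exact ih s.r hG.1.1 (hG.1.2.trans hr') hG.2.2 hk
    -- the second alternative
    have hT : ∀ (l : List St) (r : ℤ), 3 * RR ≤ 4 * r → r ≤ RR → GR p0 p1 p2 p3 z cs r l →
        ∀ i k : Fin 4, i ≠ k → ρ k ≤ (r : ℝ) / RR →
        v i ⬝ᵥ (toR (P i) - toR (z0 + z.fn)) ≤ 1 - ρ k → False := by
      intro l
      induction l with
      | nil =>
        intro r hr hr' hG i k _ hk _
        exact halpha k r (by omega) hr' hk (hG k)
      | cons s l ih =>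
        intro r hr hr' hG i k hik hk hℓ
        by_cases hcase' : (s.r : ℝ) / RR ≤ ρ k
        · refine hcase z i k r s.r (by omega) hr' (by have := hG.1.1; omega) ?_ ?_ (hG.2.1 i k hik)
          · have : ((RR - s.r : ℤ) : ℝ) / RR = 1 - (s.r : ℝ) / RR := by
              push_cast; rw [hRR]; ring
            rw [this]; linarith
          · intro x hx; exact (hxm k x hx).trans hk
        · push Not at hcase'
          exact ih s.r hG.1.1 (hG.1.2.trans hr') hG.2.2 i k hik hcase'.le hℓ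
    by_cases hex : ∃ k, ρ k < (lastR r1 l : ℝ) / RR
    · exact hU l r1 hr1a hr1b hrest hex
    · push Not at hex
      have h34 : (3 : ℝ) / 4 ≤ (lastR r1 l : ℝ) / RR := by
        rw [hRR]
        have : (3 * 200 : ℝ) ≤ 4 * (lastR r1 l : ℝ) := by
          have := hlast
          rw [hRR'] at this
          exact_mod_cast this
        rw [div_le_div_iff₀ (by norm_num) (by norm_num)]
        linarith
      obtain ⟨i, k, hik, hℓ⟩ := Pool.Agent.Helper1.UB.LW.cut K hK P v hv (z0 + z.fn) ρ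
        (fun k => h34.trans (hex k)) xx hxK (fun k => le_rfl)
      by_cases hcase' : (r1 : ℝ) / RR ≤ ρ k
      · obtain ⟨k', hk'⟩ := hfirst i
        refine hcase z i k' RR r1 (by rw [hRR']; norm_num) le_rfl (by omega) ?_ ?_ hk'
        · have : ((RR - r1 : ℤ) : ℝ) / RR = 1 - (r1 : ℝ) / RR := by
            push_cast; rw [hRR]; ring
          rw [this]; linarith
        · intro x hx
          have e1 : ((RR : ℤ) : ℝ) / RR = 1 := by rw [hRR]; norm_num
          rw [e1]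
          exact hle1 k' x hx
      · push Not at hcase'
        exact hT l r1 hr1a hr1b hrest i k hik hcase'.le hℓ

/-- a good cell: no lattice-free body at any form of the cell -/
def Good (cs : Fin 4 → V3) : Prop :=
  ∀ (lam : Fin 4 → ℝ) (X Y Z : ℝ), InCell cs lam X Y Z → ∀ K : Set (Fin 3 → ℝ), LFree K →
    ¬ PosAt K (Mm X Y Z) (100 / 507)

end Pool.Agent.Helper12.LW
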