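import Mathlib
import Pool.Agent.Helper12.LW.Cell
import Pool.Agent.Helper38.LW.MmPos

/-! The computable checker for cells and its soundness. -/

namespace Pool.Agent.Helper12.LW

open Matrix

/-- integer value of a polynomial at a corner (times `96³`) -/
def evi (p : Phi) (c : V3) : ℤ :=
  p.c0 * (96 * (9216 - c.a * c.a - c.b * c.b - c.c * c.c) + 2 * (c.a * (c.b * c.c)))
    + 96 * (p.c1 * (9216 - c.c * c.c) + p.c2 * (9216 - c.b * c.b) + p.c3 * (9216 - c.a * c.a)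
      + p.c4 * (c.b * c.c - 96 * c.a) + p.c5 * (c.a * c.c - 96 * c.b) + p.c6 * (c.a * c.b - 96 * c.c))

theorem evi_sound (p : Phi) (c : V3) (h : 0 < evi p c) : 0 < evalc p c := by
  have h1 : ((evi p c : ℤ) : ℝ) = 96 ^ 3 * evalc p c := by
    unfold evi evalc Phi.eval
    push_cast
    ring
  have h2 : (0 : ℝ) < ((evi p c : ℤ) : ℝ) := by exact_mod_cast h
  rw [h1] at h2
  exact (pos_iff_pos_of_mul_pos h2).1 (by norm_num)

/-- one condition with its multiplier -/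
def ck (p0 p1 p2 p3 z : V3) (i k : ℕ) (r r' t : ℤ) (c : V3) : Bool :=
  decide (0 ≤ t) && (decide (t ≤ TT) && decide (0 < evi (condPhi p0 p1 p2 p3 z i k r r' t) c))

theorem ck_sound {p0 p1 p2 p3 z : V3} {i k : ℕ} {r r' t : ℤ} {c : V3}
    (h : ck p0 p1 p2 p3 z i k r r' t c = true) :
    0 ≤ t ∧ t ≤ TT ∧ 0 < evalc (condPhi p0 p1 p2 p3 z i k r r' t) c := by
  simp only [ck, Bool.and_eq_true, decide_eq_true_eq] at h
  exact ⟨h.1, h.2.1, evi_sound _ _ h.2.2⟩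

/-- all twelve conditions of a table -/
def ckTab (p0 p1 p2 p3 z : V3) (r r' : ℤ) (T : Tab) (c : V3) : Bool :=
  ck p0 p1 p2 p3 z 0 1 r r' T.t01 c && (ck p0 p1 p2 p3 z 0 2 r r' T.t02 c &&
  (ck p0 p1 p2 p3 z 0 3 r r' T.t03 c && (ck p0 p1 p2 p3 z 1 0 r r' T.t10 c &&
  (ck p0 p1 p2 p3 z 1 2 r r' T.t12 c && (ck p0 p1 p2 p3 z 1 3 r r' T.t13 c &&
  (ck p0 p1 p2 p3 z 2 0 r r' T.t20 c && (ck p0 p1 p2 p3 z 2 1 r r' T.t21 c &&
  (ck p0 p1 p2 p3 z 2 3 r r' T.t23 c && (ck p0 p1 p2 p3 z 3 0 r r' T.t30 c &&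
  (ck p0 p1 p2 p3 z 3 1 r r' T.t31 c && ck p0 p1 p2 p3 z 3 2 r r' T.t32 c))))))))))

theorem ckTab_sound {p0 p1 p2 p3 z : V3} {r r' : ℤ} {T : Tab} {c : V3}
    (h : ckTab p0 p1 p2 p3 z r r' T c = true) (i k : Fin 4) (hik : i ≠ k) :
    ∃ t : ℤ, 0 ≤ t ∧ t ≤ TT ∧ 0 < evalc (condPhi p0 p1 p2 p3 z i k r r' t) c := by
  simp only [ckTab, Bool.and_eq_true] at h
  obtain ⟨h01, h02, h03, h10, h12, h13, h20, h21, h23, h30, h31, h32⟩ := h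
  fin_cases i <;> fin_cases k
  all_goals first
    | exact absurd rfl hik
    | exact ⟨_, ck_sound h01⟩
    | exact ⟨_, ck_sound h02⟩
    | exact ⟨_, ck_sound h03⟩
    | exact ⟨_, ck_sound h10⟩
    | exact ⟨_, ck_sound h12⟩
    | exact ⟨_, ck_sound h13⟩
    | exact ⟨_, ck_sound h20⟩
    | exact ⟨_, ck_sound h21⟩
    | exact ⟨_, ck_sound h23⟩
    | exact ⟨_, ck_sound h30⟩
    | exact ⟨_, ck_sound h31⟩
    | exact ⟨_, ck_sound h32⟩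

/-- the four corners -/
structure Cor where
  c0 : V3
  c1 : V3
  c2 : V3
  c3 : V3

/-- the corners as a function -/
def Cor.fn (C : Cor) : Fin 4 → V3 := ![C.c0, C.c1, C.c2, C.c3]

theorem Cor.all (C : Cor) (Q : V3 → Prop) (h0 : Q C.c0) (h1 : Q C.c1) (h2 : Q C.c2) (h3 : Q C.c3) :
    ∀ c : Fin 4, Q (C.fn c) := by
  intro c
  fin_cases c
  · exact h0
  · exact h1
  · exact h2
  · exact h3

/-- the final conditions at a corner -/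
def ckEnd (p0 p1 p2 p3 : V3) (r : ℤ) (c : V3) : Bool :=
  decide (0 < evi (condPhi p0 p1 p2 p3 p0 0 0 r RR 0) c) &&
  (decide (0 < evi (condPhi p0 p1 p2 p3 p0 0 1 r RR 0) c) &&
  (decide (0 < evi (condPhi p0 p1 p2 p3 p0 0 2 r RR 0) c) &&
  decide (0 < evi (condPhi p0 p1 p2 p3 p0 0 3 r RR 0) c)))

/-- the walk -/
def ckSteps (p0 p1 p2 p3 z : V3) (C : Cor) : ℤ → List St → Bool
  | r, [] => ckEnd p0 p1 p2 p3 r C.c0 && (ckEnd p0 p1 p2 p3 r C.c1 &&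
      (ckEnd p0 p1 p2 p3 r C.c2 && ckEnd p0 p1 p2 p3 r C.c3))
  | r, s :: l => decide (3 * RR ≤ 4 * s.r) && (decide (s.r ≤ r) &&
      (ckTab p0 p1 p2 p3 z r s.r s.T0 C.c0 && (ckTab p0 p1 p2 p3 z r s.r s.T1 C.c1 &&
      (ckTab p0 p1 p2 p3 z r s.r s.T2 C.c2 && (ckTab p0 p1 p2 p3 z r s.r s.T3 C.c3 &&
      ckSteps p0 p1 p2 p3 z C s.r l)))))

theorem ckEnd_sound {p0 p1 p2 p3 : V3} {r : ℤ} {c : V3} (h : ckEnd p0 p1 p2 p3 r c = true) (k : Fin 4) :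
    0 < evalc (condPhi p0 p1 p2 p3 p0 0 k r RR 0) c := by
  simp only [ckEnd, Bool.and_eq_true, decide_eq_true_eq] at h
  obtain ⟨h0, h1, h2, h3⟩ := h
  fin_cases k
  · exact evi_sound _ _ h0
  · exact evi_sound _ _ h1
  · exact evi_sound _ _ h2
  · exact evi_sound _ _ h3

theorem ckSteps_sound {p0 p1 p2 p3 z : V3} {C : Cor} (l : List St) : ∀ r : ℤ,
    ckSteps p0 p1 p2 p3 z C r l = true → GR p0 p1 p2 p3 z C.fn r l := by
  induction l with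
  | nil =>
    intro r h
    simp only [ckSteps, Bool.and_eq_true] at h
    obtain ⟨h0, h1, h2, h3⟩ := h
    intro k
    exact Cor.all C (fun c => 0 < evalc (condPhi p0 p1 p2 p3 p0 0 k r RR 0) c)
      (ckEnd_sound h0 k) (ckEnd_sound h1 k) (ckEnd_sound h2 k) (ckEnd_sound h3 k)
  | cons s l ih =>
    intro r h
    simp only [ckSteps, Bool.and_eq_true, decide_eq_true_eq] at h
    obtain ⟨ha, hb, h0, h1, h2, h3, h4⟩ := h
    refine ⟨⟨ha, hb⟩, ?_, ih s.r h4⟩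
    intro i k hik
    exact Cor.all C (fun c => ∃ t : ℤ, 0 ≤ t ∧ t ≤ TT ∧ 0 < evalc (condPhi p0 p1 p2 p3 z i k r s.r t) c)
      (ckTab_sound h0 i k hik) (ckTab_sound h1 i k hik) (ckTab_sound h2 i k hik)
      (ckTab_sound h3 i k hik)

/-- multipliers of the first step at one corner -/
structure F4 where
  a : ℤ
  b : ℤ
  c : ℤ
  d : ℤ

/-- a chain certificate -/
inductive CC where
  | A : CC
  | C : V3 → ℤ → F4 → F4 → F4 → F4 → List St → CC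

/-- check of the first step at one corner -/
def ckFirst (p0 p1 p2 p3 z : V3) (r1 : ℤ) (F : F4) (c : V3) : Bool :=
  ck p0 p1 p2 p3 z 0 1 RR r1 F.a c && (ck p0 p1 p2 p3 z 1 2 RR r1 F.b c &&
  (ck p0 p1 p2 p3 z 2 3 RR r1 F.c c && ck p0 p1 p2 p3 z 3 0 RR r1 F.d c))

/-- check of a chain certificate -/
def ckCC (p0 p1 p2 p3 : V3) (C : Cor) : CC → Bool
  | CC.A => decide (0 < evi (condPhi p0 p1 p2 p3 p0 0 0 RR RR 0) C.c0) &&
      (decide (0 < evi (condPhi p0 p1 p2 p3 p0 0 0 RR RR 0) C.c1) &&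
      (decide (0 < evi (condPhi p0 p1 p2 p3 p0 0 0 RR RR 0) C.c2) &&
      decide (0 < evi (condPhi p0 p1 p2 p3 p0 0 0 RR RR 0) C.c3)))
  | CC.C z r1 F0 F1 F2 F3 l => decide (3 * RR ≤ 4 * r1) && (decide (r1 ≤ RR) &&
      (ckFirst p0 p1 p2 p3 z r1 F0 C.c0 && (ckFirst p0 p1 p2 p3 z r1 F1 C.c1 &&
      (ckFirst p0 p1 p2 p3 z r1 F2 C.c2 && (ckFirst p0 p1 p2 p3 z r1 F3 C.c3 &&
      ckSteps p0 p1 p2 p3 z C r1 l)))))

theorem ckCC_sound {p0 p1 p2 p3 : V3} {C : Cor} (x : CC) (h : ckCC p0 p1 p2 p3 C x = true) :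
    GoodChain p0 p1 p2 p3 C.fn := by
  cases x with
  | A =>
    left
    simp only [ckCC, Bool.and_eq_true, decide_eq_true_eq] at h
    obtain ⟨h0, h1, h2, h3⟩ := h
    exact Cor.all C (fun c => 0 < evalc (condPhi p0 p1 p2 p3 p0 0 0 RR RR 0) c)
      (evi_sound _ _ h0) (evi_sound _ _ h1) (evi_sound _ _ h2) (evi_sound _ _ h3)
  | C z r1 F0 F1 F2 F3 l =>
    right
    simp only [ckCC, Bool.and_eq_true, decide_eq_true_eq] at h
    obtain ⟨ha, hb, h0, h1, h2, h3, h4⟩ := h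
    refine ⟨z, r1, l, ⟨ha, hb⟩, ?_, ckSteps_sound l r1 h4⟩
    simp only [ckFirst, Bool.and_eq_true] at h0 h1 h2 h3
    intro i
    fin_cases i
    · exact ⟨1, Cor.all C (fun c => ∃ t : ℤ, 0 ≤ t ∧ t ≤ TT ∧
        0 < evalc (condPhi p0 p1 p2 p3 z (0 : Fin 4) (1 : Fin 4) RR r1 t) c)
        ⟨_, ck_sound h0.1⟩ ⟨_, ck_sound h1.1⟩ ⟨_, ck_sound h2.1⟩ ⟨_, ck_sound h3.1⟩⟩
    · exact ⟨2, Cor.all C (fun c => ∃ t : ℤ, 0 ≤ t ∧ t ≤ TT ∧
        0 < evalc (condPhi p0 p1 p2 p3 z (1 : Fin 4) (2 : Fin 4) RR r1 t) c)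
        ⟨_, ck_sound h0.2.1⟩ ⟨_, ck_sound h1.2.1⟩ ⟨_, ck_sound h2.2.1⟩ ⟨_, ck_sound h3.2.1⟩⟩
    · exact ⟨3, Cor.all C (fun c => ∃ t : ℤ, 0 ≤ t ∧ t ≤ TT ∧
        0 < evalc (condPhi p0 p1 p2 p3 z (2 : Fin 4) (3 : Fin 4) RR r1 t) c)
        ⟨_, ck_sound h0.2.2.1⟩ ⟨_, ck_sound h1.2.2.1⟩ ⟨_, ck_sound h2.2.2.1⟩ ⟨_, ck_sound h3.2.2.1⟩⟩
    · exact ⟨0, Cor.all C (fun c => ∃ t : ℤ, 0 ≤ t ∧ t ≤ TT ∧
        0 < evalc (condPhi p0 p1 p2 p3 z (3 : Fin 4) (0 : Fin 4) RR r1 t) c)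
        ⟨_, ck_sound h0.2.2.2⟩ ⟨_, ck_sound h1.2.2.2⟩ ⟨_, ck_sound h2.2.2.2⟩ ⟨_, ck_sound h3.2.2.2⟩⟩

/-- zero vector -/
def V0 : V3 := ⟨0, 0, 0⟩

/-- sum -/
def V3.add (u v : V3) : V3 := ⟨u.a + v.a, u.b + v.b, u.c + v.c⟩

/-- a leaf: a superbase `f0 f1 f2` (and minus the sum) and the certificates of the six chains -/
structure Leaf where
  f0 : V3
  f1 : V3
  f2 : V3
  x01 : CC
  x10 : CC
  x02 : CC
  x20 : CC
  x12 : CC
  x21 : CC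

/-- determinant -/
def det3 (u v w : V3) : ℤ :=
  u.a * (v.b * w.c - v.c * w.b) - u.b * (v.a * w.c - v.c * w.a) + u.c * (v.a * w.b - v.b * w.a)

/-- corner in the domain -/
def ckH (c : V3) : Bool :=
  decide (2 * c.a ≤ 96) && (decide (-96 ≤ 2 * c.a) && (decide (2 * c.b ≤ 96) && (decide (-96 ≤ 2 * c.b) &&
  (decide (2 * c.c ≤ 96) && (decide (-96 ≤ 2 * c.c) && (decide (-96 ≤ c.a + c.b + c.c) &&
  (decide (-96 ≤ c.a - c.b - c.c) && (decide (-96 ≤ -c.a + c.b - c.c) && decide (-96 ≤ -c.a - c.b + c.c)))))))))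

theorem ckH_sound {c : V3} (h : ckH c = true) : (Mc c).PosDef := by
  simp only [ckH, Bool.and_eq_true, decide_eq_true_eq] at h
  obtain ⟨h1, h2, h3, h4, h5, h6, h7, h8, h9, h10⟩ := h
  have g1 : 2 * (c.a : ℝ) ≤ 96 := by exact_mod_cast h1
  have g2 : -96 ≤ 2 * (c.a : ℝ) := by exact_mod_cast h2
  have g3 : 2 * (c.b : ℝ) ≤ 96 := by exact_mod_cast h3
  have g4 : -96 ≤ 2 * (c.b : ℝ) := by exact_mod_cast h4
  have g5 : 2 * (c.c : ℝ) ≤ 96 := by exact_mod_cast h5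
  have g6 : -96 ≤ 2 * (c.c : ℝ) := by exact_mod_cast h6
  have g7 : -96 ≤ (c.a : ℝ) + c.b + c.c := by exact_mod_cast h7
  have g8 : -96 ≤ (c.a : ℝ) - c.b - c.c := by exact_mod_cast h8
  have g9 : -96 ≤ -(c.a : ℝ) + c.b - c.c := by exact_mod_cast h9
  have g10 : -96 ≤ -(c.a : ℝ) - c.b + c.c := by exact_mod_cast h10
  apply Pool.Agent.Helper38.LW.mm_posDef
  refine ⟨?_, ?_, ?_, ?_, ?_, ?_, ?_⟩
  · rw [abs_le]; constructor <;> linarith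
  · rw [abs_le]; constructor <;> linarith
  · rw [abs_le]; constructor <;> linarith
  · linarith
  · linarith
  · linarith
  · linarith

/-- check of a leaf -/
def ckLeaf (C : Cor) (L : Leaf) : Bool :=
  let s := (L.f0.add L.f1).add L.f2
  (decide (det3 L.f0 L.f1 L.f2 = 1) || decide (det3 L.f0 L.f1 L.f2 = -1)) &&
  (ckH C.c0 && (ckH C.c1 && (ckH C.c2 && (ckH C.c3 &&
  (ckCC V0 L.f0 (L.f0.add L.f1) s C L.x01 && (ckCC V0 L.f1 (L.f1.add L.f0) s C L.x10 &&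
  (ckCC V0 L.f0 (L.f0.add L.f2) s C L.x02 && (ckCC V0 L.f2 (L.f2.add L.f0) s C L.x20 &&
  (ckCC V0 L.f1 (L.f1.add L.f2) s C L.x12 && ckCC V0 L.f2 (L.f2.add L.f1) s C L.x21)))))))))

end Pool.Agent.Helper12.LW
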