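import Mathlib
import Pool.Agent.Helper12.LW.Chk

/-! Soundness of the check of a leaf. -/

namespace Pool.Agent.Helper12.LW

open Matrix

theorem V3.fn_add (u v : V3) : (u.add v).fn = u.fn + v.fn := by
  funext i
  fin_cases i <;> simp [V3.fn, V3.add]

theorem V0_fn : V0.fn = 0 := by
  funext i
  fin_cases i <;> simp [V3.fn, V0]

theorem chain_pts (f : Fin 4 → Fin 3 → ℤ) (z : Fin 3 → ℤ) (σ : Equiv.Perm (Fin 3)) (a b c : Fin 3)
    (ha : σ 0 = a) (hb : σ 1 = b) (hc : σ 2 = c) :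
    chainP f z σ 0 = z + 0 ∧ chainP f z σ 1 = z + f a.castSucc ∧
      chainP f z σ 2 = z + (f a.castSucc + f b.castSucc) ∧
      chainP f z σ 3 = z + (f a.castSucc + f b.castSucc + f c.castSucc) := by
  refine ⟨?_, ?_, ?_, ?_⟩
  · simp [chainP]
  · simp [chainP, Fin.sum_univ_three, ha]
  · simp [chainP, Fin.sum_univ_three, ha, hb]
  · simp [chainP, Fin.sum_univ_three, ha, hb, hc]

/-- the superbase of a leaf -/
def Leaf.f (L : Leaf) : Fin 4 → Fin 3 → ℤ := ![L.f0.fn, L.f1.fn, L.f2.fn, -(L.f0.fn + L.f1.fn + L.f2.fn)]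

theorem det3_eq (L : Leaf) : (Matrix.of ![L.f 0, L.f 1, L.f 2]).det = det3 L.f0 L.f1 L.f2 := by
  rw [Matrix.det_fin_three]
  simp [Leaf.f, V3.fn, det3]
  ring

theorem leaf_good (C : Cor) (L : Leaf) (h : ckLeaf C L = true) : Good C.fn := by
  simp only [ckLeaf, Bool.and_eq_true, Bool.or_eq_true, decide_eq_true_eq] at h
  obtain ⟨hdet, g0, g1, g2, g3, h01, h10, h02, h20, h12, h21⟩ := h
  intro lam X Y Z hcell K hK hpos
  have hcs : ∀ c, (Mc (C.fn c)).PosDef :=
    Cor.all C (fun c => (Mc c).PosDef) (ckH_sound g0) (ckH_sound g1) (ckH_sound g2) (ckH_sound g3)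
  have hf : ∑ l, L.f l = 0 := by
    rw [Fin.sum_univ_four]
    simp [Leaf.f]
  have hd : IsUnit (Matrix.of ![L.f 0, L.f 1, L.f 2]).det := by
    rw [det3_eq, Int.isUnit_iff]
    exact hdet
  obtain ⟨z, σ, v, hv⟩ := Pool.Agent.Helper1.UB.LW.sperner K hK L.f hf hd
  obtain ⟨a, ha⟩ : ∃ a, σ 0 = a := ⟨_, rfl⟩
  obtain ⟨b, hb⟩ : ∃ b, σ 1 = b := ⟨_, rfl⟩
  obtain ⟨c, hc⟩ : ∃ c, σ 2 = c := ⟨_, rfl⟩
  have hab : a ≠ b := by
    intro hh
    have := σ.injective (ha.trans (hh.trans hb.symm))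
    exact absurd this (by decide)
  have hac : a ≠ c := by
    intro hh
    have := σ.injective (ha.trans (hh.trans hc.symm))
    exact absurd this (by decide)
  have hbc : b ≠ c := by
    intro hh
    have := σ.injective (hb.trans (hh.trans hc.symm))
    exact absurd this (by decide)
  obtain ⟨e0, e1, e2, e3⟩ := chain_pts L.f z σ a b c ha hb hc
  have k0 : L.f (Fin.castSucc 0) = L.f0.fn := rfl
  have k1 : L.f (Fin.castSucc 1) = L.f1.fn := rfl
  have k2 : L.f (Fin.castSucc 2) = L.f2.fn := rfl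
  have key : ∀ (u w t : V3), L.f a.castSucc = u.fn → L.f b.castSucc = w.fn → L.f c.castSucc = t.fn →
      u.fn + w.fn + t.fn = L.f0.fn + L.f1.fn + L.f2.fn →
      GoodChain V0 u (u.add w) ((L.f0.add L.f1).add L.f2) C.fn → False := by
    intro u w t hu hw ht hs hg
    refine chain_false K hK hcell hcs (100 / 507) le_rfl hpos (chainP L.f z σ) v hv z V0 u (u.add w)
      ((L.f0.add L.f1).add L.f2) ?_ ?_ ?_ ?_ hg
    · rw [e0, V0_fn]
    · rw [e1, hu]
    · rw [e2, hu, hw, V3.fn_add]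
    · rw [e3, hu, hw, ht, V3.fn_add, V3.fn_add, hs]
  have s01 := ckCC_sound _ h01
  have s10 := ckCC_sound _ h10
  have s02 := ckCC_sound _ h02
  have s20 := ckCC_sound _ h20
  have s12 := ckCC_sound _ h12
  have s21 := ckCC_sound _ h21
  fin_cases a <;> fin_cases b <;> fin_cases c
  all_goals first
    | exact absurd rfl hab
    | exact absurd rfl hac
    | exact absurd rfl hbc
    | exact key L.f0 L.f1 L.f2 k0 k1 k2 (by abel) s01
    | exact key L.f1 L.f0 L.f2 k1 k0 k2 (by abel) s10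
    | exact key L.f0 L.f2 L.f1 k0 k2 k1 (by abel) s02
    | exact key L.f2 L.f0 L.f1 k2 k0 k1 (by abel) s20
    | exact key L.f1 L.f2 L.f0 k1 k2 k0 (by abel) s12
    | exact key L.f2 L.f1 L.f0 k2 k1 k0 (by abel) s21

end Pool.Agent.Helper12.LW
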